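import Pool.Agent.Helper5.SX.St

/-!
# Project SX: module PB (one block of the second type, real inequality)
-/

set_option autoImplicit false

namespace Pool.Agent.Helper80.SX

open _root_.SX
open Finset
open scoped Classical

theorem hPB : StPB := by
  intro D D' r h l a v ρ hD hD' hh hhD hv hK hKl ha hsum hr hρ
  set K0 : ℝ := r - D - D' with hK0
  have hrD : D' < r := by linarith
  have hr0 : 0 < r := by linarith
  have hl0 : 0 < l := by linarith
  -- e K0 ≤ D' (l - K0)
  have h1 : (h + a - D') * K0 ≤ D' * (l - K0) := by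
    have e1 : (h + a - D') * K0 = (h - D') * K0 + a * K0 := by ring
    have e2 : (D' - h) * (l - K0) ≤ D' * (l - K0) :=
      mul_le_mul_of_nonneg_right (by linarith) (by linarith)
    have e3 : (h - D') * K0 + l * (D' - h) = (D' - h) * (l - K0) := by ring
    linarith
  have h2 : (h + a - D') + v ≤ r - l - D' := by linarith
  have h3 : r * ((h + a - D') + v / 3) ≤ (r - D') * (h + a - D') + D' * ((h + a - D') + v) := by
    have e1 : r * (v / 3) ≤ D' * v := by
      have : r / 3 ≤ D' := by linarith
      calc r * (v / 3) = r / 3 * v := by ring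
        _ ≤ D' * v := mul_le_mul_of_nonneg_right this hv
    have e2 : r * ((h + a - D') + v / 3) = r * (h + a - D') + r * (v / 3) := by ring
    have e3 : (r - D') * (h + a - D') + D' * ((h + a - D') + v) = r * (h + a - D') + D' * v := by ring
    linarith
  have h4 : r * K0 * ((h + a - D') + v / 3) ≤ D' * D * l := by
    have e1 : r * K0 * ((h + a - D') + v / 3) = K0 * (r * ((h + a - D') + v / 3)) := by ring
    have e2 : K0 * (r * ((h + a - D') + v / 3)) ≤
        K0 * ((r - D') * (h + a - D') + D' * ((h + a - D') + v)) :=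
      mul_le_mul_of_nonneg_left h3 hK.le
    have e3 : (r - D') * ((h + a - D') * K0) ≤ (r - D') * (D' * (l - K0)) :=
      mul_le_mul_of_nonneg_left h1 (by linarith)
    have e4 : K0 * (D' * ((h + a - D') + v)) ≤ K0 * (D' * (r - l - D')) :=
      mul_le_mul_of_nonneg_left (mul_le_mul_of_nonneg_left h2 hD'.le) hK.le
    have e5 : (r - D') * (D' * (l - K0)) + K0 * (D' * (r - l - D')) = D' * l * (r - D' - K0) := by ring
    have e6 : r - D' - K0 = D := by rw [hK0]; ring
    rw [e6] at e5
    have e7 : K0 * ((r - D') * (h + a - D') + D' * ((h + a - D') + v)) =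
        (r - D') * ((h + a - D') * K0) + K0 * (D' * ((h + a - D') + v)) := by ring
    calc r * K0 * ((h + a - D') + v / 3) ≤ (r - D') * (D' * (l - K0)) + K0 * (D' * (r - l - D')) := by
          rw [e1]; linarith
      _ = D' * D * l := by rw [e5]; ring
  have h5 : r * K0 * ((h + a - D') + v / 3) ≤ r * K0 * (ρ * l) := by
    have e1 : D' * D * l ≤ ρ * (r * K0) * l := mul_le_mul_of_nonneg_right hρ hl0.le
    calc r * K0 * ((h + a - D') + v / 3) ≤ D' * D * l := h4
      _ ≤ ρ * (r * K0) * l := e1
      _ = r * K0 * (ρ * l) := by ring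
  exact le_of_mul_le_mul_left h5 (mul_pos hr0 hK)

end Pool.Agent.Helper80.SX
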